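import Pool.Agent.Y554.NE.Stm

/-!
# The polymer sum (job NE-EXPS, project NE of helper554)
-/

set_option autoImplicit false

namespace Pool.Agent.Y67.NE

open Finset

theorem exps_gen {E : Type*} [DecidableEq E] (V : Finset E) (u b : Finset E → ℝ)
    (hb : ∀ R, 0 ≤ b R)
    (h : ∀ S ⊆ V, ∃ P : Finset (Finset E), (∀ R ∈ P, R ⊆ V ∧ R.Nonempty) ∧ P.biUnion id = S ∧
      u S ≤ ∏ R ∈ P, b R) :
    ∑ S ∈ V.powerset, u S ≤
      Real.exp (∑ R ∈ V.powerset.filter (fun R => R.Nonempty), b R) := by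
  choose! P hP1 hP2 hP3 using h
  have hinj : Set.InjOn P (V.powerset : Set (Finset E)) := by
    intro S hS S' hS' he
    rw [← hP2 S (mem_powerset.1 hS), ← hP2 S' (mem_powerset.1 hS'), he]
  have hsub : V.powerset.image P ⊆ (V.powerset.filter (fun R => R.Nonempty)).powerset := by
    intro T hT
    obtain ⟨S, hS, rfl⟩ := mem_image.1 hT
    rw [mem_powerset]
    intro R hR
    have h1 := hP1 S (mem_powerset.1 hS) R hR
    exact mem_filter.2 ⟨mem_powerset.2 h1.1, h1.2⟩
  calc ∑ S ∈ V.powerset, u S ≤ ∑ S ∈ V.powerset, ∏ R ∈ P S, b R :=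
        sum_le_sum fun S hS => hP3 S (mem_powerset.1 hS)
    _ = ∑ T ∈ V.powerset.image P, ∏ R ∈ T, b R :=
        (sum_image (f := fun T : Finset (Finset E) => ∏ R ∈ T, b R) hinj).symm
    _ ≤ ∑ T ∈ (V.powerset.filter (fun R => R.Nonempty)).powerset, ∏ R ∈ T, b R :=
        sum_le_sum_of_subset_of_nonneg hsub fun T _ _ => prod_nonneg fun R _ => hb R
    _ = ∏ R ∈ V.powerset.filter (fun R => R.Nonempty), (1 + b R) := (prod_one_add _).symm
    _ ≤ ∏ R ∈ V.powerset.filter (fun R => R.Nonempty), Real.exp (b R) := by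
        refine prod_le_prod (fun R _ => by have := hb R; linarith) fun R _ => ?_
        have := Real.add_one_le_exp (b R)
        linarith
    _ = Real.exp (∑ R ∈ V.powerset.filter (fun R => R.Nonempty), b R) :=
        (Real.exp_sum _ _).symm

theorem exps : Pool.Agent.Y554.NE.S_EXPS := fun V u b hb h => exps_gen V u b hb h

end Pool.Agent.Y67.NE
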